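import Pool.Agent.H40.KBX.CEL
import Pool.Agent.H84.KBOX.StmtsU

/-!
# Row TUP: the tuples of lines in most cells
-/

set_option autoImplicit false

namespace Pool.Agent.H63.KBX

open Finset Real
open Pool.Agent.H49.Ent Pool.Agent.H32.Dense Pool.STK Pool.KAF Pool.KAL Pool.KS3 Pool.KBX
open Pool.Agent.H40.KBX

section gen

variable {W S U : Type} [Fintype W]

open Classical in
lemma Pr_sum (q : W → ℝ) (E : Set W) : Pr q E = ∑ w, if w ∈ E then q w else 0 := by
  unfold Pr law
  refine Finset.sum_congr rfl fun w _ => ?_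
  by_cases h : w ∈ E
  · simp [h]
  · simp [h]

lemma Pr_mono' {q : W → ℝ} (hq : ∀ w, 0 ≤ q w) {E F : Set W} (h : ∀ w, 0 < q w → w ∈ E → w ∈ F) :
    Pr q E ≤ Pr q F := by
  classical
  rw [Pr_sum, Pr_sum]
  refine Finset.sum_le_sum fun w _ => ?_
  by_cases hE : w ∈ E
  · rw [if_pos hE]
    by_cases h0 : 0 < q w
    · rw [if_pos (h w h0 hE)]
    · have : q w = 0 := le_antisymm (not_lt.1 h0) (hq w)
      rw [this]; split_ifs <;> exact le_rfl
  · rw [if_neg hE]; split_ifs
    · exact hq w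
    · exact le_rfl

lemma Pr_union' {q : W → ℝ} (hq : ∀ w, 0 ≤ q w) (E F : Set W) :
    Pr q (E ∪ F) ≤ Pr q E + Pr q F := by
  classical
  rw [Pr_sum, Pr_sum, Pr_sum, ← Finset.sum_add_distrib]
  refine Finset.sum_le_sum fun w _ => ?_
  have := hq w
  by_cases hE : w ∈ E <;> by_cases hF : w ∈ F <;> simp [hE, hF, this]

/-- Markov's inequality for a nonnegative function of the label. -/
lemma markov_lab {q : W → ℝ} (hq : ∀ w, 0 ≤ q w) (Z : W → S) (g : S → ℝ)
    (hg : ∀ w, 0 < q w → 0 ≤ g (Z w)) (t B : ℝ) (ht : 0 < t) (hB : 8 * B ≤ t)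
    (hs : ∑ w, q w * g (Z w) ≤ B) : Pr q {w | t < g (Z w)} ≤ 1 / 8 := by
  classical
  have h1 : t * Pr q {w | t < g (Z w)} ≤ ∑ w, q w * g (Z w) := by
    rw [Pr_sum, Finset.mul_sum]
    refine Finset.sum_le_sum fun w _ => ?_
    by_cases h : w ∈ {w | t < g (Z w)}
    · rw [if_pos h, mul_comm]
      exact mul_le_mul_of_nonneg_left (le_of_lt h) (hq w)
    · rw [if_neg h, mul_zero]
      rcases (hq w).lt_or_eq with h0 | h0
      · exact mul_nonneg h0.le (hg w h0)
      · rw [← h0]; simp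
  by_contra hcon
  rw [not_le] at hcon
  nlinarith

lemma sum_H_cond {q : W → ℝ} (hq : ∀ w, 0 ≤ q w) (X : W → U) (Z : W → S) :
    ∑ w, q w * H (Pool.Agent.H49.Ent.cond q Z (Z w)) X = CH q X Z := by
  classical
  rw [CH_eq_sum hq X Z]
  exact sum_mul_eq_sum_image q Z (fun z => H (Pool.Agent.H49.Ent.cond q Z z) X)

lemma sum_Pr_cond {q : W → ℝ} (hq : ∀ w, 0 ≤ q w) (E : Set W) (Z : W → S) :
    ∑ w, q w * Pr (Pool.Agent.H49.Ent.cond q Z (Z w)) E = Pr q E := by
  classical
  rw [sum_mul_eq_sum_image q Z (fun z => Pr (Pool.Agent.H49.Ent.cond q Z z) E)]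
  have h1 : ∀ z, law q Z z * Pr (Pool.Agent.H49.Ent.cond q Z z) E = ∑ w, if w ∈ E ∧ Z w = z then q w else 0 := by
    intro z
    by_cases hz : law q Z z = 0
    · rw [hz, zero_mul]
      symm
      refine Finset.sum_eq_zero fun w _ => ?_
      split_ifs with h
      · have := le_law hq Z w
        rw [h.2, hz] at this
        exact le_antisymm this (hq w)
      · rfl
    · rw [Pr_sum, Finset.mul_sum]
      refine Finset.sum_congr rfl fun w _ => ?_
      unfold Pool.Agent.H49.Ent.cond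
      by_cases h : w ∈ E <;> by_cases h' : Z w = z <;> simp [h, h']
      field_simp
  rw [Finset.sum_congr rfl fun z _ => h1 z, Finset.sum_comm, Pr_sum]
  refine Finset.sum_congr rfl fun w _ => ?_
  rw [Finset.sum_eq_single (Z w)]
  · by_cases h : w ∈ E <;> simp [h]
  · intro z _ hz
    rw [if_neg fun h => hz h.2.symm]
  · intro h
    exact absurd (Finset.mem_image_of_mem Z (Finset.mem_univ w)) h

lemma Pr_Marg {Ω : Type} [Fintype Ω] {q : W → ℝ} {p : Ω → ℝ} {pr : W → Ω} (h : Marg q p pr)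
    (E : Set Ω) : Pr q {w | pr w ∈ E} = Pr p E := by
  unfold Pr
  exact h.law (fun ω => ω ∈ E) True

end gen

section cell

variable {n : ℕ} {Ω Λ Ξ W : Type} [Fintype Ω] [Fintype W] {p : Ω → ℝ} {lam : Ω → Λ} {x : Ω → Ξ}
  {pos : Ξ → Option (Fin n) → ℕ} {i₀ : Fin n} {q : W → ℝ} {f : Fin n → W → Ω} {L a b : ℕ}
  {c : Option (Fin n) → ℕ}

/-- The tuples in the cell. -/
def fc (hq : IsLaw q) (hm : ∀ j, Marg q p (f j)) (hx : ∀ w, 0 < q w → ∀ j, x (f j w) = x (f i₀ w))
    (j : Fin n) (w : Oc L a q (fun w => x (f i₀ w)) pos c) : Oc L a p x pos c :=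
  ⟨f j w.1, (hm j).pos hq.nonneg w.2.1, by rw [hx w.1 w.2.1 j]; exact w.2.2⟩

lemma law_cell (hm : Marg q p (f i₀)) :
    law q (fun w => cel (2 ^ (L - a)) pos (x (f i₀ w))) c =
      law p (fun ω => cel (2 ^ (L - a)) pos (x ω)) c :=
  hm.law (fun ω => cel (2 ^ (L - a)) pos (x ω)) c

lemma marg_cell (hq : IsLaw q) (hm : ∀ j, Marg q p (f j))
    (hx : ∀ w, 0 < q w → ∀ j, x (f j w) = x (f i₀ w)) (j : Fin n) :
    Marg (fun w : Oc L a q (fun w => x (f i₀ w)) pos c => pc L a q (fun w => x (f i₀ w)) pos c w.1)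
      (fun ω : Oc L a p x pos c => pc L a p x pos c ω.1) (fc hq hm hx j) := by
  classical
  intro ω
  have e1 : ∀ w : Oc L a q (fun w => x (f i₀ w)) pos c,
      (if fc hq hm hx j w = ω then pc L a q (fun w => x (f i₀ w)) pos c w.1 else 0) =
      (fun w : W => if f j w = ω.1 then pc L a q (fun w => x (f i₀ w)) pos c w else 0) w.1 := by
    intro w
    by_cases h : fc hq hm hx j w = ω
    · have h' : f j w.1 = ω.1 := congrArg Subtype.val h
      simp only [h, h', if_true]
    · have h' : f j w.1 ≠ ω.1 := fun h' => h (Subtype.ext h')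
      simp only [h, h', if_false]
  rw [Finset.sum_congr rfl fun w _ => e1 w,
    sumOc (L := L) (a := a) (p := q) (x := fun w => x (f i₀ w)) (pos := pos) (c := c)
      (fun w : W => if f j w = ω.1 then pc L a q (fun w => x (f i₀ w)) pos c w else 0)]
  have e3 : law q (fun w => cel (2 ^ (L - a)) pos (x (f i₀ w))) c =
      law p (fun ω => cel (2 ^ (L - a)) pos (x ω)) c := law_cell (hm i₀)
  have e4 : pc L a p x pos c ω.1 = p ω.1 / law p (fun ω => cel (2 ^ (L - a)) pos (x ω)) c := by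
    unfold pc Pool.Agent.H49.Ent.cond
    rw [if_pos ω.2.2]
  show _ = pc L a p x pos c ω.1
  rw [e4, ← hm j ω.1, Finset.sum_div]
  refine Finset.sum_congr rfl fun w _ => ?_
  by_cases h : f j w = ω.1
  · rw [if_pos h]
    rcases (hq.nonneg w).lt_or_eq with h0 | h0
    · have hc : cel (2 ^ (L - a)) pos (x (f i₀ w)) = c := by
        rw [← hx w h0 j, h]; exact ω.2.2
      rw [if_pos ⟨h0, hc⟩, if_pos h, ← e3]
      unfold pc Pool.Agent.H49.Ent.cond
      rw [if_pos hc]
    · rw [if_neg fun h1 => absurd h1.1 (by rw [← h0]; exact lt_irrefl _), ← h0]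
      simp
  · rw [if_neg h]
    simp [h]

lemma bc_of_cel (hab : a + b ≤ L) (ξ ξ' : Ξ)
    (h : cel (2 ^ (L - (a + b))) pos ξ = cel (2 ^ (L - (a + b))) pos ξ') :
    bc (L - a) b (fun ξ i => pos ξ i % 2 ^ (L - a)) ξ =
      bc (L - a) b (fun ξ i => pos ξ i % 2 ^ (L - a)) ξ' := by
  funext i
  have h1 : pos ξ (some i) / 2 ^ (L - (a + b)) = pos ξ' (some i) / 2 ^ (L - (a + b)) :=
    congrFun h (some i)
  have e1 : L - a - b = L - (a + b) := by omega
  have e2 : 2 ^ (L - a) = 2 ^ (L - (a + b)) * 2 ^ b := by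
    rw [← pow_add]; congr 1; omega
  show pos ξ (some i) % 2 ^ (L - a) / 2 ^ (L - a - b) =
    pos ξ' (some i) % 2 ^ (L - a) / 2 ^ (L - a - b)
  rw [e1, e2, Nat.mod_mul_right_div_self, Nat.mod_mul_right_div_self, h1]

lemma cel_of_cel (hab : a + b ≤ L) (ξ ξ' : Ξ)
    (h : cel (2 ^ (L - (a + b))) pos ξ = cel (2 ^ (L - (a + b))) pos ξ') :
    cel (2 ^ (L - a)) pos ξ = cel (2 ^ (L - a)) pos ξ' := by
  funext o
  have h1 : pos ξ o / 2 ^ (L - (a + b)) = pos ξ' o / 2 ^ (L - (a + b)) := congrFun h o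
  have e2 : 2 ^ (L - a) = 2 ^ (L - (a + b)) * 2 ^ b := by
    rw [← pow_add]; congr 1; omega
  show pos ξ o / 2 ^ (L - a) = pos ξ' o / 2 ^ (L - a)
  rw [e2, ← Nat.div_div_eq_div_mul, ← Nat.div_div_eq_div_mul, h1]

end cell

/-- **Row TUP.** -/
theorem tup_thm : TUPStmt := by
  classical
  intro n Ω Λ Ξ W _ _ p lam x pos B i₀ q f L a b δ η θ hp hq hm hx hab hη hθ h1 h2
  set Z : W → Option (Fin n) → ℕ := fun w => cel (2 ^ (L - a)) pos (x (f i₀ w)) with hZ
  set Y : W → Option (Fin n) → ℕ := fun w => cel (2 ^ (L - (a + b))) pos (x (f i₀ w)) with hY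
  set F : W → Fin n → Fin n → ℤ := fun w => fr b fun j i => B (lam (f j w)) (some i) with hF
  set D : Set W := {w | |Matrix.det (Matrix.of fun j i => B (lam (f j w)) (some i))| < δ ^ n}
    with hD
  set g₁ : (Option (Fin n) → ℕ) → ℝ := fun c => Pr (Pool.Agent.H49.Ent.cond q Z c) D with hg₁
  set g₂ : (Option (Fin n) → ℕ) → ℝ := fun c => H (Pool.Agent.H49.Ent.cond q Z c) F - CH (Pool.Agent.H49.Ent.cond q Z c) F Y with hg₂
  -- good cells
  have key : ∀ c, 0 < law q Z c → g₁ c ≤ η → g₂ c ≤ θ → Tc L a b δ η θ p lam x pos B i₀ c := by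
    intro c hc hc1 hc2
    have hq' := Oc_isLaw (L := L) (a := a) (x := fun w => x (f i₀ w)) (pos := pos) (c := c) hq hc
    refine ⟨Oc L a q (fun w => x (f i₀ w)) pos c, inferInstance,
      fun w => pc L a q (fun w => x (f i₀ w)) pos c w.1, fc hq hm hx, hq',
      marg_cell hq hm hx, fun w _ j => hx w.1 w.2.1 j, ?_, ?_⟩
    · have e : Pr (fun w : Oc L a q (fun w => x (f i₀ w)) pos c =>
          pc L a q (fun w => x (f i₀ w)) pos c w.1)
          {w | |Matrix.det (Matrix.of fun j i => B (lam (fc hq hm hx j w).1) (some i))| < δ ^ n} =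
          Pr (pc L a q (fun w => x (f i₀ w)) pos c) D := by
        unfold Pr
        exact lawOc (L := L) (a := a) (x := fun w => x (f i₀ w)) (pos := pos) (c := c) hq.nonneg
          (fun w => w ∈ D) True
      rw [e]; exact hc1
    · have e1 := HOc (L := L) (a := a) (x := fun w => x (f i₀ w)) (pos := pos) (c := c)
        hq.nonneg F
      have e2 := CHOc (L := L) (a := a) (x := fun w => x (f i₀ w)) (pos := pos) (c := c)
        hq.nonneg F
        (fun w => bc (L - a) b (fun ξ i => pos ξ i % 2 ^ (L - a)) (x (f i₀ w)))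
      have e3 : CH (pc L a q (fun w => x (f i₀ w)) pos c) F Y ≤
          CH (pc L a q (fun w => x (f i₀ w)) pos c) F
          (fun w => bc (L - a) b (fun ξ i => pos ξ i % 2 ^ (L - a)) (x (f i₀ w))) :=
        CH_mono_cond (fun w => cond_nonneg hq.nonneg _ _ w)
          (fun w w' _ _ h => bc_of_cel hab _ _ h)
      calc H (fun w : Oc L a q (fun w => x (f i₀ w)) pos c =>
            pc L a q (fun w => x (f i₀ w)) pos c w.1)
            (fun w => fr b fun j i => B (lam (fc hq hm hx j w).1) (some i)) -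
          CH (fun w : Oc L a q (fun w => x (f i₀ w)) pos c =>
            pc L a q (fun w => x (f i₀ w)) pos c w.1)
            (fun w => fr b fun j i => B (lam (fc hq hm hx j w).1) (some i))
            (fun w => bc (L - a) b (fun ξ i => pos ξ i % 2 ^ (L - a)) (x (fc hq hm hx i₀ w).1))
          = H (pc L a q (fun w => x (f i₀ w)) pos c) F -
            CH (pc L a q (fun w => x (f i₀ w)) pos c) F
            (fun w => bc (L - a) b (fun ξ i => pos ξ i % 2 ^ (L - a)) (x (f i₀ w))) := by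
            rw [← e1, ← e2]; rfl
        _ ≤ g₂ c := by
            show _ ≤ H (Pool.Agent.H49.Ent.cond q Z c) F - CH (Pool.Agent.H49.Ent.cond q Z c) F Y
            have : CH (pc L a q (fun w => x (f i₀ w)) pos c) F Y = CH (Pool.Agent.H49.Ent.cond q Z c) F Y := rfl
            have h' : H (pc L a q (fun w => x (f i₀ w)) pos c) F = H (Pool.Agent.H49.Ent.cond q Z c) F := rfl
            rw [← h', ← this]
            linarith
        _ ≤ θ := hc2
  -- averages
  have hposlaw : ∀ w, 0 < q w → 0 < law q Z (Z w) := fun w hw => law_pos hq.nonneg Z hw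
  have a1 : ∑ w, q w * g₁ (Z w) = Pr q D := sum_Pr_cond hq.nonneg D Z
  have hYZ : Det q Y Z := fun w w' _ _ h => cel_of_cel hab _ _ h
  have a2 : ∑ w, q w * g₂ (Z w) = JJ L a b lam x pos B i₀ q f := by
    have t1 : ∑ w, q w * H (Pool.Agent.H49.Ent.cond q Z (Z w)) F = CH q F Z := sum_H_cond hq.nonneg F Z
    have t2 : ∑ w, q w * CH (Pool.Agent.H49.Ent.cond q Z (Z w)) F Y = CH q F Y := by
      have t3 : ∑ w, q w * H (Pool.Agent.H49.Ent.cond q Z (Z w)) (fun w => (F w, Y w)) =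
          CH q (fun w => (F w, Y w)) Z := sum_H_cond hq.nonneg _ Z
      have t4 : ∑ w, q w * H (Pool.Agent.H49.Ent.cond q Z (Z w)) Y = CH q Y Z := sum_H_cond hq.nonneg _ Z
      have t5 : ∑ w, q w * CH (Pool.Agent.H49.Ent.cond q Z (Z w)) F Y =
          ∑ w, q w * H (Pool.Agent.H49.Ent.cond q Z (Z w)) (fun w => (F w, Y w)) -
          ∑ w, q w * H (Pool.Agent.H49.Ent.cond q Z (Z w)) Y := by
        rw [← Finset.sum_sub_distrib]
        refine Finset.sum_congr rfl fun w _ => ?_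
        unfold CH
        ring
      rw [t5, t3, t4]
      unfold CH
      have u1 : H q (fun w => ((F w, Y w), Z w)) = H q (fun w => (F w, Y w)) := by
        refine H_congr hq.nonneg ?_ ?_
        · intro w w' hw hw' h
          have h' := Prod.ext_iff.1 h
          exact Prod.ext h (hYZ w w' hw hw' h'.2)
        · intro w w' _ _ h
          exact (Prod.ext_iff.1 h).1
      have u2 : H q (fun w => (Y w, Z w)) = H q Y := by
        refine H_congr hq.nonneg ?_ ?_
        · intro w w' hw hw' h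
          exact Prod.ext h (hYZ w w' hw hw' h)
        · intro w w' _ _ h
          exact (Prod.ext_iff.1 h).1
      rw [u1, u2]
      ring
    have t6 : ∑ w, q w * g₂ (Z w) = ∑ w, q w * H (Pool.Agent.H49.Ent.cond q Z (Z w)) F -
        ∑ w, q w * CH (Pool.Agent.H49.Ent.cond q Z (Z w)) F Y := by
      rw [← Finset.sum_sub_distrib]
      refine Finset.sum_congr rfl fun w _ => ?_
      rw [hg₂]
      ring
    rw [t6, t1, t2]
    rfl
  have n1 : ∀ c, 0 ≤ g₁ c := fun c => law_nonneg (fun w => cond_nonneg hq.nonneg _ _ w) _ _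
  have n2 : ∀ w, 0 < q w → 0 ≤ g₂ (Z w) := by
    intro w hw
    have hl : IsLaw (Pool.Agent.H49.Ent.cond q Z (Z w)) :=
      ⟨fun w' => cond_nonneg hq.nonneg _ _ w', sum_cond q Z (hposlaw w hw).ne'⟩
    have := subadd hl.nonneg hl.sum_one (X := F) (Y := Y) (W := fun w => (F w, Y w))
      (fun _ _ _ _ h => h)
    show 0 ≤ H (Pool.Agent.H49.Ent.cond q Z (Z w)) F - CH (Pool.Agent.H49.Ent.cond q Z (Z w)) F Y
    unfold CH
    linarith
  have m1 := markov_lab hq.nonneg Z g₁ (fun w _ => n1 _) η (Pr q D) hη h1 a1.le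
  have m2 := markov_lab hq.nonneg Z g₂ n2 θ _ hθ h2 a2.le
  -- conclusion
  have c1 : Pr p {ω | ¬ Tc L a b δ η θ p lam x pos B i₀ (cel (2 ^ (L - a)) pos (x ω))} =
      Pr q {w | ¬ Tc L a b δ η θ p lam x pos B i₀ (Z w)} :=
    (Pr_Marg (hm i₀) {ω | ¬ Tc L a b δ η θ p lam x pos B i₀ (cel (2 ^ (L - a)) pos (x ω))}).symm
  rw [c1]
  have c2 : Pr q {w | ¬ Tc L a b δ η θ p lam x pos B i₀ (Z w)} ≤
      Pr q ({w | η < g₁ (Z w)} ∪ {w | θ < g₂ (Z w)}) := by
    refine Pr_mono' hq.nonneg fun w hw h => ?_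
    by_contra hcon
    apply h
    simp only [Set.mem_union, Set.mem_ofPred_eq, not_or, not_lt] at hcon
    exact key (Z w) (hposlaw w hw) hcon.1 hcon.2
  have c3 := Pr_union' hq.nonneg {w | η < g₁ (Z w)} {w | θ < g₂ (Z w)}
  linarith

end Pool.Agent.H63.KBX
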